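import Mathlib
import Pool.Agent.H76.ConjA

namespace Pool.Agent.Results.MP_1867d3_co.Full

open Finset Pool.Agent.H76.ConjA

/-- degree of a vertex -/
noncomputable def deg {n : ℕ} (G : SimpleGraph (Fin n)) (v : Fin n) : ℕ := (G.neighborSet v).ncard

/-- conjugate degree sequence: coordinate `k` (0-based) is `d*_{k+1} = #{v : deg v ≥ k+1}` -/
noncomputable def dstar {n : ℕ} (G : SimpleGraph (Fin n)) : Fin n → ℝ :=
  fun k => (({v | k.val + 1 ≤ deg G v} : Set (Fin n)).ncard : ℝ)

/-- `C_n`, the convex hull of all conjugate degree sequences of graphs on `n` vertices -/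
noncomputable def C (n : ℕ) : Set (Fin n → ℝ) :=
  convexHull ℝ (Set.range (fun G : SimpleGraph (Fin n) => dstar G))

/-- the vector with `d` ones followed by zeros -/
noncomputable def step (n d : ℕ) : Fin n → ℝ := fun k => if k.val + 1 ≤ d then 1 else 0

variable {n : ℕ}

lemma dstar_eq (G : SimpleGraph (Fin n)) : dstar G = ∑ v, step n (deg G v) := by
  funext k
  simp only [dstar, step, Finset.sum_apply, sum_boole]
  rw [← Set.ncard_coe_finset]
  congr 2
  ext v; simp

open Classical in
lemma deg_eq (G : SimpleGraph (Fin n)) (v : Fin n) : deg G v = G.degree v := by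
  rw [deg, ← SimpleGraph.card_neighborFinset_eq_degree, SimpleGraph.neighborFinset_def,
    Set.ncard_eq_toFinset_card']

lemma deg_lt (G : SimpleGraph (Fin n)) (v : Fin n) : deg G v < n := by
  classical
  rw [deg_eq]
  simpa using G.degree_lt_card_verts v

lemma even_odd (G : SimpleGraph (Fin n)) : Even (univ.filter (fun v => Odd (deg G v))).card := by
  classical
  have := G.even_card_odd_degree_vertices
  simpa only [deg_eq] using this

noncomputable def L (n : ℕ) (c : ℕ → ℝ) : (Fin n → ℝ) →ₗ[ℝ] ℝ :=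
  ∑ k : Fin n, (c (k.val + 1) - c k.val) • LinearMap.proj k

lemma L_step (c : ℕ → ℝ) (d : ℕ) (hd : d < n) : L n c (step n d) = c d - c 0 := by
  simp only [L, step, LinearMap.sum_apply, LinearMap.smul_apply, LinearMap.proj_apply,
    smul_eq_mul]
  rw [Fin.sum_univ_eq_sum_range (fun k => (c (k + 1) - c k) * if k + 1 ≤ d then 1 else 0) n,
    ← Finset.sum_range_sub c d]
  symm
  rw [← Finset.sum_subset (Finset.range_subset_range.2 hd.le)]
  · apply Finset.sum_congr rfl
    intro k hk
    rw [if_pos (by simpa using hk), mul_one]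
  · intro k _ hk
    rw [if_neg (by simpa using hk), mul_zero]

noncomputable def cnt (G : SimpleGraph (Fin n)) (d : ℕ) : ℕ :=
  (univ.filter (fun v => deg G v = d)).card

noncomputable def ind (d : ℕ) : ℕ → ℝ := fun j => if j = d then 1 else 0

lemma L_dstar (c : ℕ → ℝ) (G : SimpleGraph (Fin n)) :
    L n c (dstar G) = ∑ v, c (deg G v) - n * c 0 := by
  rw [dstar_eq, map_sum, Finset.sum_congr rfl (fun v _ => L_step c _ (deg_lt G v)),
    Finset.sum_sub_distrib]
  simp

lemma sum_ind (G : SimpleGraph (Fin n)) (d : ℕ) : ∑ v, ind d (deg G v) = cnt G d := by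
  simp [ind, cnt]

lemma cnt_le (G : SimpleGraph (Fin n)) (d : ℕ) : cnt G d ≤ n := by
  simpa [cnt] using card_le_univ (univ.filter (fun v => deg G v = d))

lemma struct1 (G : SimpleGraph (Fin n)) (d : ℕ) (h : cnt G d = n) : ∀ v, deg G v = d := by
  have : univ.filter (fun v => deg G v = d) = univ := by
    apply eq_univ_of_card; simpa [cnt] using h
  intro v
  have hv : v ∈ univ.filter (fun v => deg G v = d) := by rw [this]; simp
  simpa using hv

lemma struct2 (G : SimpleGraph (Fin n)) (d : ℕ) (h : cnt G d + 1 = n) :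
    ∃ w, deg G w ≠ d ∧ ∀ v ≠ w, deg G v = d := by
  have h1 := card_filter_add_card_filter_not (s := (univ : Finset (Fin n)))
    (fun v => deg G v = d)
  rw [card_univ, Fintype.card_fin] at h1
  obtain ⟨w, hw⟩ := card_eq_one.1
    (show (univ.filter (fun v => ¬ deg G v = d)).card = 1 by unfold cnt at h; omega)
  refine ⟨w, ?_, fun v hv => ?_⟩
  · have : w ∈ univ.filter (fun v => ¬ deg G v = d) := by rw [hw]; simp
    simpa using this
  · by_contra hc
    have : v ∈ univ.filter (fun v => ¬ deg G v = d) := by simpa using hc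
    rw [hw] at this
    exact hv (by simpa using this)

lemma dstar1 (G : SimpleGraph (Fin n)) (d : ℕ) (h : ∀ v, deg G v = d) :
    dstar G = (n : ℝ) • step n d := by
  rw [dstar_eq]; simp [h, Nat.cast_smul_eq_nsmul]

lemma dstar2 (G : SimpleGraph (Fin n)) (d : ℕ) (w : Fin n) (h : ∀ v ≠ w, deg G v = d) :
    dstar G = ((n : ℝ) - 1) • step n d + step n (deg G w) := by
  rw [dstar_eq, ← Finset.sum_erase_add _ _ (mem_univ w),
    Finset.sum_congr rfl (fun v hv => by rw [h v (ne_of_mem_erase hv)]), sum_const,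
    card_erase_of_mem (mem_univ w), card_univ, Fintype.card_fin, ← Nat.cast_smul_eq_nsmul ℝ,
    Nat.cast_sub (by have := w.pos; omega), Nat.cast_one]

lemma cnt_odd (hn : Odd n) (G : SimpleGraph (Fin n)) :
    (univ.filter (fun v => Odd (deg G v))).card + 1 ≤ n := by
  have h1 := even_odd G
  have h2 : (univ.filter (fun v => Odd (deg G v))).card ≤ n := by
    simpa using card_le_univ (univ.filter (fun v => Odd (deg G v)))
  obtain ⟨a, ha⟩ := h1
  obtain ⟨b, hb⟩ := hn
  omega

lemma key1 (G : SimpleGraph (Fin n)) (d : ℕ) (hd : d < n) :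
    (∀ v, deg G v = d) ∨ L n (ind d) (dstar G) < L n (ind d) ((n : ℝ) • step n d) := by
  rcases (cnt_le G d).eq_or_lt with h | h
  · exact Or.inl (struct1 G d h)
  · right
    rw [L_dstar, sum_ind, map_smul, L_step _ _ hd]
    have : (cnt G d : ℝ) < n := by exact_mod_cast h
    simp only [ind, if_true, smul_eq_mul]
    linarith

lemma key2 (hn : Odd n) (G : SimpleGraph (Fin n)) (d d' : ℕ) (hd : d < n) (hd' : d' < n)
    (ho : Odd d) (he : Even d') :
    (∃ w, deg G w = d' ∧ ∀ v ≠ w, deg G v = d) ∨
      L n (fun j => 2 * ind d j + ind d' j) (dstar G) <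
      L n (fun j => 2 * ind d j + ind d' j) (((n : ℝ) - 1) • step n d + step n d') := by
  have hne : d ≠ d' := by rintro rfl; exact (Nat.not_even_iff_odd.2 ho) he
  have h1 : cnt G d + 1 ≤ n := by
    refine le_trans (Nat.add_le_add_right (card_le_card ?_) 1) (cnt_odd hn G)
    intro v hv
    simp only [mem_filter, mem_univ, true_and] at hv ⊢
    rwa [hv]
  have h2 : cnt G d + cnt G d' ≤ n := by
    unfold cnt
    rw [← card_union_of_disjoint (by
      rw [disjoint_filter]; intro v _ a b; exact hne (a.symm.trans b))]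
    simpa using card_le_univ
      (univ.filter (fun v => deg G v = d) ∪ univ.filter (fun v => deg G v = d'))
  by_cases h : 2 * cnt G d + cnt G d' + 1 = 2 * n
  · left
    obtain ⟨w, hw, hv⟩ := struct2 G d (by omega)
    refine ⟨w, ?_, hv⟩
    obtain ⟨u, hu⟩ := card_pos.1 (show 0 < cnt G d' by omega)
    simp only [mem_filter, mem_univ, true_and] at hu
    by_cases huw : u = w
    · rwa [← huw]
    · exact absurd ((hv u huw).symm.trans hu) hne
  · right
    rw [L_dstar, sum_add_distrib, ← mul_sum, sum_ind, sum_ind, map_add, map_smul,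
      L_step _ _ hd, L_step _ _ hd']
    have : 2 * (cnt G d : ℝ) + cnt G d' + 1 < 2 * n := by
      exact_mod_cast (show 2 * cnt G d + cnt G d' + 1 < 2 * n by omega)
    simp only [ind, if_true, smul_eq_mul, if_neg hne, if_neg hne.symm]
    linarith

/-- the claimed extreme points -/
def E (n : ℕ) : Set (Fin n → ℝ) :=
  {x | (∃ d < n, Even (n * d) ∧ x = (n : ℝ) • step n d) ∨
    (Odd n ∧ ∃ d < n, ∃ d' < n, Odd d ∧ Even d' ∧ x = ((n : ℝ) - 1) • step n d + step n d')}

lemma mem_hull (hn : 1 ≤ n) (G : SimpleGraph (Fin n)) : dstar G ∈ convexHull ℝ (E n) := by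
  have hn' : (0 : ℝ) < n := by exact_mod_cast hn
  have easy : (∀ v, Even (n * deg G v)) → dstar G ∈ convexHull ℝ (E n) := by
    intro h
    have : dstar G = ∑ v : Fin n, (1 / (n : ℝ)) • ((n : ℝ) • step n (deg G v)) := by
      rw [dstar_eq]
      apply sum_congr rfl
      intro v _
      rw [smul_smul, one_div_mul_cancel hn'.ne', one_smul]
    rw [this]
    refine (convex_convexHull ℝ _).sum_mem (fun _ _ => by positivity) (by simp; field_simp) ?_
    intro v _
    exact subset_convexHull ℝ _ (Or.inl ⟨_, deg_lt G v, h v, rfl⟩)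
  rcases Nat.even_or_odd n with hev | hod
  · exact easy (fun v => hev.mul_right _)
  set B := univ.filter (fun v => Odd (deg G v)) with hB
  set A := univ.filter (fun v => ¬ Odd (deg G v)) with hA
  have hAB : B.card + A.card = n := by
    have := card_filter_add_card_filter_not (s := (univ : Finset (Fin n)))
      (fun v => Odd (deg G v))
    rwa [card_univ, Fintype.card_fin] at this
  have hB1 : B.card + 1 ≤ n := cnt_odd hod G
  rcases B.eq_empty_or_nonempty with hB0 | hB0
  · apply easy
    intro v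
    have : v ∉ B := by rw [hB0]; simp
    have : ¬ Odd (deg G v) := by simpa [hB] using this
    exact (Nat.not_odd_iff_even.1 this).mul_left _
  have hb : (1 : ℝ) ≤ B.card := by exact_mod_cast card_pos.2 hB0
  have ha : (1 : ℝ) ≤ A.card := by exact_mod_cast (show 1 ≤ A.card by omega)
  have hab : (B.card : ℝ) + A.card = n := by exact_mod_cast hAB
  have hn1 : (0 : ℝ) < n - 1 := by linarith
  set t : ℝ := B.card / (n - 1) with ht
  have ht0 : 0 ≤ t := by positivity
  have ht1 : t ≤ 1 := by rw [ht, div_le_one hn1]; linarith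
  -- x1 : average of mixed points, x2 : average of regular points
  have m1 : ∑ p ∈ B ×ˢ A, (1 / ((B.card : ℝ) * A.card)) •
      (((n : ℝ) - 1) • step n (deg G p.1) + step n (deg G p.2)) ∈ convexHull ℝ (E n) := by
    refine (convex_convexHull ℝ _).sum_mem (fun _ _ => by positivity)
      (by simp; field_simp) ?_
    intro p hp
    simp only [hA, hB, mem_product, mem_filter, mem_univ, true_and] at hp
    exact subset_convexHull ℝ _ (Or.inr ⟨hod, _, deg_lt G _, _, deg_lt G _, hp.1,
      Nat.not_odd_iff_even.1 hp.2, rfl⟩)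
  have m2 : ∑ v ∈ A, (1 / (A.card : ℝ)) • ((n : ℝ) • step n (deg G v)) ∈ convexHull ℝ (E n) := by
    refine (convex_convexHull ℝ _).sum_mem (fun _ _ => by positivity)
      (by simp; field_simp) ?_
    intro v hv
    simp only [hA, mem_filter, mem_univ, true_and] at hv
    exact subset_convexHull ℝ _ (Or.inl ⟨_, deg_lt G v,
      (Nat.not_odd_iff_even.1 hv).mul_left _, rfl⟩)
  have m3 := (convex_convexHull ℝ (E n)) m1 m2 ht0 (sub_nonneg.2 ht1) (by ring)
  convert m3 using 1
  rw [dstar_eq, ← sum_filter_add_sum_filter_not univ (fun v => Odd (deg G v)), ← hA, ← hB,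
    ← smul_sum, ← smul_sum, ← smul_sum, sum_add_distrib, sum_product, sum_product]
  simp only [sum_const, ← smul_sum]
  funext k
  simp only [Pi.add_apply, Pi.smul_apply, smul_eq_mul, nsmul_eq_mul, Pi.mul_apply,
    Pi.natCast_apply]
  generalize (∑ v ∈ B, step n (deg G v)) k = x
  generalize (∑ v ∈ A, step n (deg G v)) k = y
  rw [ht, ← hab]
  rw [← hab] at hn1
  field_simp
  ring

lemma ext_eq (hn : 1 ≤ n) : (C n).extremePoints ℝ = E n := by
  have hE : E n ⊆ (C n).extremePoints ℝ := by
    rintro x (⟨d, hd, he, rfl⟩ | ⟨ho, d, hd, d', hd', h1, h2, rfl⟩)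
    · obtain ⟨H, hH⟩ := regular n d hd he
      refine exposed _ (L n (ind d)) _ ⟨H, dstar1 H d hH⟩ ?_
      rintro _ ⟨G, rfl⟩
      exact (key1 G d hd).imp_left (dstar1 G d)
    · obtain ⟨H, w, hw, hH⟩ := special n d d' ho hd hd' h1 h2
      refine exposed _ (L n (fun j => 2 * ind d j + ind d' j)) _
        ⟨H, by rw [← hw]; exact dstar2 H d w hH⟩ ?_
      rintro _ ⟨G, rfl⟩
      refine (key2 ho G d d' hd hd' h1 h2).imp_left ?_
      rintro ⟨u, hu, hv⟩
      rw [← hu]; exact dstar2 G d u hv
  refine Set.Subset.antisymm ?_ hE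
  have : C n = convexHull ℝ (E n) := by
    apply Set.Subset.antisymm
    · exact convexHull_min (by rintro _ ⟨G, rfl⟩; exact mem_hull hn G) (convex_convexHull ℝ _)
    · exact convexHull_min (fun x hx => (hE hx).1) (convex_convexHull ℝ _)
  rw [this]
  exact extremePoints_convexHull_subset

theorem result (n : ℕ) (hn : 1 ≤ n) :
    (C n).extremePoints ℝ =
      {x | (∃ d < n, Even (n * d) ∧ x = (n : ℝ) • step n d) ∨
        (Odd n ∧ ∃ d < n, ∃ d' < n, Odd d ∧ Even d' ∧
          x = ((n : ℝ) - 1) • step n d + step n d')} ∧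
    ∀ G : SimpleGraph (Fin n), dstar G ∈ (C n).extremePoints ℝ ↔
      ((∃ d, ∀ v, deg G v = d) ∨ (Odd n ∧ ∃ w d, Odd d ∧ ∀ v ≠ w, deg G v = d)) := by
  refine ⟨ext_eq hn, fun G => ?_⟩
  rw [ext_eq hn]
  constructor
  · rintro (⟨d, hd, -, h⟩ | ⟨ho, d, hd, d', hd', h1, h2, h⟩)
    · rcases key1 G d hd with h' | h'
      · exact Or.inl ⟨d, h'⟩
      · rw [h] at h'; exact absurd h' (lt_irrefl _)
    · rcases key2 ho G d d' hd hd' h1 h2 with ⟨w, -, h'⟩ | h'
      · exact Or.inr ⟨ho, w, d, h1, h'⟩
      · rw [h] at h'; exact absurd h' (lt_irrefl _)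
  · have reg : ∀ d, (∀ v, deg G v = d) → dstar G ∈ E n := by
      intro d h
      refine Or.inl ⟨d, h ⟨0, hn⟩ ▸ deg_lt G _, ?_, dstar1 G d h⟩
      rcases Nat.even_or_odd d with he | ho
      · exact he.mul_left _
      · have := even_odd G
        rw [filter_true_of_mem (fun v _ => by rwa [h v])] at this
        simpa using (show Even n by simpa using this).mul_right d
    rintro (⟨d, h⟩ | ⟨ho, w, d, hd, h⟩)
    · exact reg d h
    · by_cases h1 : ∃ v, v ≠ w
      · obtain ⟨v, hv⟩ := h1
        refine Or.inr ⟨ho, d, h v hv ▸ deg_lt G v, _, deg_lt G w, hd, ?_, dstar2 G d w h⟩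
        by_contra hw
        have h2 := cnt_odd ho G
        rw [filter_true_of_mem (fun u _ => by
          by_cases hu : u = w
          · rw [hu]; exact Nat.not_even_iff_odd.1 hw
          · rwa [h u hu])] at h2
        simp at h2
      · exact reg (deg G w) (fun v => by rw [not_not.1 (fun hv => h1 ⟨v, hv⟩)])

end Pool.Agent.Results.MP_1867d3_co.Full
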